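import Pool.Agent.H56.SLT.Zw
import Pool.Agent.H82.MV.Nor8

/-!
# The counts, with the permutations of the slopes

`NtP`: no ties with the last slope, and the ties of the other slopes are below it; `TopP`: a tie with
the last slope and no ties of the other slopes. `hc0_bP`: as `hc0_b`, from no boxes at the windows
`NtP` and `TopP`. `nore_ind8P`: the static chains.
-/

set_option autoImplicit false

namespace Pool.SW

open MeasureTheory Set Filter Topology
open Finset (range univ)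
open Pool.Agent.H49.Ent Pool.Agent.H32.Dense Pool.STK Pool.KA Pool.KSAT Pool.K2S Pool.PB Pool.S6C
open Pool.GEN Pool.ONE Pool.EXW Pool.TOP Pool.ZCL Pool.ZLC Pool.ZFN Pool.ZCO Pool.PKG Pool.CHT
open Pool.Z4 Pool.ZL
open Pool.LBT (ThrOf)
open Pool.LEV (Law)
open Pool.ALL (RateOf)
open Pool.ZFI (LF ll_law ll_bd01 aff_der aff_dg right_ae zwd_of)

variable {n : ℕ} {hn : 2 ≤ n} {S : PCl n} {P : ℝ → ℝ → ℝ} {r : ℝ → ℝ}
  {P' : ℕ → List (Fin n) × Fin n → ℝ → ℝ → ℝ} {Λ : Finset (Fin n) → Fin n → ℝ → ℝ → ℝ}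
  {PB : ℕ → List (Fin n) × Fin n → ℝ → ℝ → ℝ}

/-- **The count with no loss**, with the data on the events only near the windows with `X`. -/
theorem nore_cnt0P (H : Pk hn S P r P' Λ) (hTop : Pool.TOP.TopS n) (hF1 : FZX 1)
    (hF : FZX (n - 1)) (hn4 : n ≤ 4) (hW : ∀ k, 2 ≤ k → k < n → RW k)
    {C' : (Fin (n - 1) → ℝ) → ℝ → Prop}
    (hCm : MeasurableSet {p : (Fin (n - 1) → ℝ) × ℝ | C' p.1 p.2}) (hV : VAll hn hTop hF C')
    {s : Fin n → ℝ} {d : ℕ → ℝ} {al : ℝ} {g₀ : ℝ → ℝ} {e₀ : ℝ} {K₀ : ℕ} {N : ℚ → ℚ → ℝ}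
    (hal : 0 < al) (hg₀ : ∀ ε : ℝ, 0 < ε → 0 < g₀ ε) (hC : ClX s d al g₀ e₀ K₀ N S)
    {o : Od n} {l : ℕ} (hl1 : 1 ≤ l) (hl : l < n - 1) {X : ℝ → Prop}
    (hMev : MevY hn S P r P' Λ o l X) :
    ∀ᵐ g : ℝ, g ∈ Gs P r P' Λ o → (∃ la t : ℕ → ℝ, Pool.ZFI.Cfg hn P P' o l g la t ∧ la l = 1) →
      CokP C' (fun j => deriv (fun v => LL hn P P' o (ix l j + 1) v v) g)
        (deriv (fun v => LL hn P P' o (l + 1) v v) g) → X g →
      deriv (fun v => P v v) g * (1 - deriv r (P g g)) ≤ 0 := by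
  have hmain := cntY H hTop hF hl le_rfl one_pos
    (Φ := fun g la _ => (la l = 1 ∧
      CokP C' (fun j => deriv (fun v => LL hn P P' o (ix l j + 1) v v) g)
      (deriv (fun v => LL hn P P' o (l + 1) v v) g)) ∧ X g) (o := o) ?_
  · filter_upwards [hmain] with g h1 hg hcf hck hX
    obtain ⟨la, t, h2, h3⟩ := hcf
    have h5 := h1 hg ⟨la, t, h2, ⟨h3, hck⟩, hX⟩ (by
      have h4 := h2.t0
      rw [(aff_der (h2.aff l le_rfl (by omega))).deriv, h3]
      linarith)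
    rwa [zero_mul] at h5
  · rintro gap hgap g hg ⟨_, _, _, _, hX⟩
    obtain ⟨C₀, hC₀, h0⟩ := hMev gap hgap g hg hX
    refine ⟨C₀, hC₀, fun C hCC lam T rho V hrho hE => ?_⟩
    have hC1 : (1 : ℝ) ≤ C := by exact_mod_cast hC₀.trans hCC
    obtain ⟨ϱ, hϱ, h1⟩ := h0 C hCC lam T rho V hrho hE
    refine ⟨ϱ, hϱ, fun δ hδ hδϱ => ?_⟩
    obtain ⟨B, hB, h2⟩ := h1 δ hδ hδϱ
    have hGm : MeasurableSet (Gs P r P' Λ o ∩ Eg (LF hn P P' o) l n lam T (epg n C gap) rho) :=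
      (H.gs_meas o).inter (eg_meas (fun i _ hin => ll_law H hin) (ll_bd01 H l) (V.e0 hC1).le)
    refine ⟨B, hB, ?_⟩
    filter_upwards [h2, right_ae (Gs P r P' Λ o), Pool.BSM.grid_lb hGm]
      with w₁ h2 hR hgr k0 k1 k2 k3 k4 k5 k6 A s₀ hs₀ hA
    obtain ⟨a₀, w₀, b, B, h01, hδa, har, M, Vd, β, E₁, hβ, hMO, hnum, hVV, hE0, hE1, hVd, hME⟩ :=
      h2 k0 k1 k2 k3 k4 k5 k6
    have Z := zwd_of H hl1 hl V hC1 hδ B hδa.le har k1.1 k1.2 k2.1 k2.2 (hR k1.1) hβ hMO hnum hVV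
    have hδ0 : (0 : ℝ) < δ := by exact_mod_cast hδ
    refine zw_cP Z H hTop hF1 hF hn4 hW hCm hV hal hg₀ hC hE0 hE1 hVd hME (fun x hx => hx.1) hGm
      hgr ?_ (σ := fun x => deriv (fun v => LL hn P P' o (l + 1) v v) x) hs₀
      (fun x hx => ⟨(hA x hx).2.1, (hA x hx).1⟩) ?_ ?_
    · intro x hx0 hx1 hxG
      have hx0' : (0 : ℝ) < x := by exact_mod_cast hx0
      have hx1' : (x : ℝ) < δ := by exact_mod_cast hx1
      have h3 := B.h1
      rw [psi_diag V hC1 (ll_bd01 H l) hxG.2 B (by linarith) (by linarith) (by linarith)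
        (by linarith), mul_zero]
    · intro x hx h3 h4
      obtain ⟨m1, m2, m3, m4, m5, la, t, m6, ⟨m7, -⟩, -⟩ := hA x hx
      have m8 := m6.aff l le_rfl (by omega)
      have m9 := aff_der m8
      rw [m7] at m9
      have hd : deriv (fun v => LL hn P P' o (l + 1) v v) x = 1 + t l := m9.deriv
      refine ⟨m5, m4, ?_, ?_, m9.continuousAt, m3⟩
      · rw [hd]
        exact lu_rg V hC1 hrho m1 m6.aff m7 B h01 h3 (by linarith) (by linarith) (by linarith)
      · rw [hd, ← m7]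
        exact aff_dg m8
    · intro x hx _ _
      obtain ⟨-, -, -, -, -, la, t, -, ⟨-, m8⟩, -⟩ := hA x hx
      exact m8

/-- **The count with no loss** for the static chains, at the windows with `X`. -/
theorem hc0_cP (H : PkT hn S P r P' Λ PB) (hTop : TopS n) (hF1 : FZX 1) (hF : FZX (n - 1))
    (hn4 : n ≤ 4) (hW : ∀ k, 2 ≤ k → k < n → RW k) {C' : (Fin (n - 1) → ℝ) → ℝ → Prop}
    (hCm : MeasurableSet {p : (Fin (n - 1) → ℝ) × ℝ | C' p.1 p.2}) (hV : VAll hn hTop hF C')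
    {h : ℝ} (hh : 0 ≤ h) {X : Od n → ℕ → ℝ → Prop} (hMev : ∀ (o : Od n) (l : ℕ), 1 ≤ l →
      l < n - 1 → MevY hn S P r P' Λ o l (X o l)) (o : Od n) (l : ℕ) :
    ∀ᵐ g : ℝ, RwH H hTop hF h o g → Pool.Z4.Cfg hn P P' o l g → X o l g →
      CokP C' (fun j => deriv (fun v => LL hn P P' o (ix l j + 1) v v) g)
        (deriv (fun v => LL hn P P' o (l + 1) v v) g) → False := by
  by_cases hl : 1 ≤ l ∧ l < n - 1
  swap
  · exact Eventually.of_forall fun g _ hC => absurd ⟨hC.l1, hC.ln⟩ hl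
  obtain ⟨hl1, hl2⟩ := hl
  obtain ⟨al, g₀, s, d, e, K₀, N, hal, hg₀, hC⟩ := H.toPk.cl
  filter_upwards [nore_cnt0P H.toPk hTop hF1 hF hn4 hW hCm hV hal hg₀ hC hl1 hl2
    (hMev o l hl1 hl2)] with g h1 R hCf hX hck
  have hg := R.rwd.mem
  have h2 := h1 hg (cfg_of H hl2 hg hCf) hck hX
  have hdg : (H.nk hTop hF).dg o (n - 1) = fun a => P a a := (H.nk hTop hF).dg_m o
  have hone : 1 ≤ deriv (fun a => P a a) g := by
    have h3 := R.rwd.one (n - 1) le_rfl
    rwa [hdg] at h3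
  have h3 := R.defi
  have h4 : 0 < deriv (fun a => P a a) g * (1 - deriv r (P g g)) :=
    mul_pos (by linarith) (by linarith)
  linarith


/-- The other slopes, after the first one, which are equal are smaller than the last slope. -/
def LowT (n : ℕ) (s : Fin (n - 1) → ℝ) (σ : ℝ) : Prop :=
  ∀ i j : Fin (n - 1), 1 ≤ (i : ℕ) → 1 ≤ (j : ℕ) → i ≠ j → s i = s j → s i < σ

/-- The other slopes, after the first one, are different. -/
def DifT (n : ℕ) (s : Fin (n - 1) → ℝ) : Prop :=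
  ∀ i j : Fin (n - 1), 1 ≤ (i : ℕ) → 1 ≤ (j : ℕ) → i ≠ j → s i ≠ s j

/-- **No ties with the last slope**, one contact coordinate, and the ties of the other slopes are
below the last slope. -/
def NtP (n : ℕ) (s : Fin (n - 1) → ℝ) (σ : ℝ) : Prop := NtO n s σ ∧ LowT n s σ

/-- **The last slope is the largest one** and larger than two, and the other slopes are
different. -/
def TopP (n : ℕ) (s : Fin (n - 1) → ℝ) (σ : ℝ) : Prop := TopC n s σ ∧ DifT n s

theorem lowT_meas (n : ℕ) : MeasurableSet {p : (Fin (n - 1) → ℝ) × ℝ | LowT n p.1 p.2} := by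
  have h1 : {p : (Fin (n - 1) → ℝ) × ℝ | LowT n p.1 p.2} =
      ⋂ i : Fin (n - 1), ⋂ j : Fin (n - 1), {p : (Fin (n - 1) → ℝ) × ℝ | 1 ≤ (i : ℕ) →
        1 ≤ (j : ℕ) → i ≠ j → p.1 i = p.1 j → p.1 i < p.2} := by
    ext p
    simp only [LowT, Set.mem_ofPred_eq, Set.mem_iInter]
  rw [h1]
  refine MeasurableSet.iInter fun i => MeasurableSet.iInter fun j => ?_
  by_cases hi : 1 ≤ (i : ℕ) ∧ 1 ≤ (j : ℕ) ∧ i ≠ j
  · have h2 : {p : (Fin (n - 1) → ℝ) × ℝ | 1 ≤ (i : ℕ) → 1 ≤ (j : ℕ) → i ≠ j → p.1 i = p.1 j →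
        p.1 i < p.2} = {p : (Fin (n - 1) → ℝ) × ℝ | p.1 i = p.1 j}ᶜ ∪
          {p : (Fin (n - 1) → ℝ) × ℝ | p.1 i < p.2} := by
      ext p
      simp only [Set.mem_ofPred_eq, Set.mem_union, Set.mem_compl_iff]
      constructor
      · intro h
        by_cases h3 : p.1 i = p.1 j
        · exact Or.inr (h hi.1 hi.2.1 hi.2.2 h3)
        · exact Or.inl h3
      · rintro (h | h) _ _ _ h4
        · exact absurd h4 h
        · exact h
    rw [h2]
    exact (measurableSet_eq_fun ((measurable_pi_apply i).comp measurable_fst)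
      ((measurable_pi_apply j).comp measurable_fst)).compl.union
      (measurableSet_lt ((measurable_pi_apply i).comp measurable_fst) measurable_snd)
  · have h2 : {p : (Fin (n - 1) → ℝ) × ℝ | 1 ≤ (i : ℕ) → 1 ≤ (j : ℕ) → i ≠ j → p.1 i = p.1 j →
        p.1 i < p.2} = Set.univ := by
      ext p
      simp only [Set.mem_ofPred_eq, Set.mem_univ, iff_true]
      intro a b c
      exact absurd ⟨a, b, c⟩ hi
    rw [h2]
    exact MeasurableSet.univ

theorem difT_meas (n : ℕ) : MeasurableSet {p : (Fin (n - 1) → ℝ) × ℝ | DifT n p.1} := by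
  have h1 : {p : (Fin (n - 1) → ℝ) × ℝ | DifT n p.1} =
      ⋂ i : Fin (n - 1), ⋂ j : Fin (n - 1), {p : (Fin (n - 1) → ℝ) × ℝ | 1 ≤ (i : ℕ) →
        1 ≤ (j : ℕ) → i ≠ j → p.1 i ≠ p.1 j} := by
    ext p
    simp only [DifT, Set.mem_ofPred_eq, Set.mem_iInter]
  rw [h1]
  refine MeasurableSet.iInter fun i => MeasurableSet.iInter fun j => ?_
  by_cases hi : 1 ≤ (i : ℕ) ∧ 1 ≤ (j : ℕ) ∧ i ≠ j
  · have h2 : {p : (Fin (n - 1) → ℝ) × ℝ | 1 ≤ (i : ℕ) → 1 ≤ (j : ℕ) → i ≠ j →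
        p.1 i ≠ p.1 j} = {p : (Fin (n - 1) → ℝ) × ℝ | p.1 i = p.1 j}ᶜ := by
      ext p
      simp only [Set.mem_ofPred_eq, Set.mem_compl_iff]
      exact ⟨fun h => h hi.1 hi.2.1 hi.2.2, fun h _ _ _ => h⟩
    rw [h2]
    exact (measurableSet_eq_fun ((measurable_pi_apply i).comp measurable_fst)
      ((measurable_pi_apply j).comp measurable_fst)).compl
  · have h2 : {p : (Fin (n - 1) → ℝ) × ℝ | 1 ≤ (i : ℕ) → 1 ≤ (j : ℕ) → i ≠ j →
        p.1 i ≠ p.1 j} = Set.univ := by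
      ext p
      simp only [Set.mem_ofPred_eq, Set.mem_univ, iff_true]
      intro a b c
      exact absurd ⟨a, b, c⟩ hi
    rw [h2]
    exact MeasurableSet.univ

theorem ntP_meas (n : ℕ) : MeasurableSet {p : (Fin (n - 1) → ℝ) × ℝ | NtP n p.1 p.2} :=
  (ntO_meas n).inter (lowT_meas n)

theorem topP_meas (n : ℕ) : MeasurableSet {p : (Fin (n - 1) → ℝ) × ℝ | TopP n p.1 p.2} :=
  (topC_meas n).inter (difT_meas n)

theorem cok_perm {C : (Fin (n - 1) → ℝ) → ℝ → Prop} {τ : ℕ → ℝ} {σ : ℝ} (h : Cok C τ σ) :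
    CokP C τ σ := fun s h0 π h1 _ => h s h0 fun i hi => ⟨π i, (h1 i hi).1, (h1 i hi).2.1,
      (h1 i hi).2.2⟩

/-- The last slope of the slots: two coordinates of the base with different slots. -/
theorem perm_two (hn4 : n ≤ 4) {π : ℕ → ℕ} {i j : Fin (n - 1)} (hi : 1 ≤ (i : ℕ))
    (hj : 1 ≤ (j : ℕ)) (hij : i ≠ j) (h1 : ∀ i : Fin (n - 1), 1 ≤ (i : ℕ) → 1 ≤ π i ∧ π i < n - 1)
    (h2 : ∀ i j, 1 ≤ i → i < n - 1 → 1 ≤ j → j < n - 1 → π i = π j → i = j) :
    n = 4 ∧ ((π i = 2 ∧ π j = 1) ∨ (π j = 2 ∧ π i = 1)) := by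
  have e1 := h1 i hi
  have e2 := h1 j hj
  have e3 := i.2
  have e4 := j.2
  have e5 : (i : ℕ) ≠ j := fun h => hij (Fin.ext h)
  have e6 : π i ≠ π j := fun h => e5 (h2 i j hi e3 hj e4 h)
  have e7 : n = 4 := by omega
  exact ⟨e7, by omega⟩

/-- **The windows with a rough coordinate of slope larger than the slope of the target**: there are
none, from no boxes at the windows `NtP` and `TopP`. -/
theorem hc0_bP (H : PkT hn S P r P' Λ PB) (hTop : TopS n) (hF1 : FZX 1) (hF : FZX (n - 1))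
    (hn4 : n ≤ 4) (hW : ∀ k, 2 ≤ k → k < n → RW k) (hV : VAll hn hTop hF (NtP n))
    (hT : n = 4 → VAll hn hTop hF (TopP n)) {h : ℝ} (hh : 0 ≤ h) {Y : Od n → ℝ → Prop}
    (hMev : ∀ (o : Od n) (l : ℕ), 1 ≤ l → l < n - 1 →
      MevY hn S P r P' Λ o l (fun g => RwH H hTop hF h o g ∧ Xa hn P P' PB o l g ∧ Y o g))
    (o : Od n) (l : ℕ) :
    ∀ᵐ g : ℝ, RwH H hTop hF h o g → Xa hn P P' PB o l g → Y o g →
      deriv (fun a => P a a) g < deriv (fun a => LL hn P P' o (l + 1) a a) g → False := by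
  have eP : LL hn P P' o (n - 1 + 1) = P := by
    rw [← lvL_eq o le_rfl]
    funext a w
    exact LvL_top o a w
  have h1 := hc0_cP H hTop hF1 hF hn4 hW (ntP_meas n) hV hh
    (X := fun o l g => RwH H hTop hF h o g ∧ Xa hn P P' PB o l g ∧ Y o g) hMev o l
  have h2 : ∀ᵐ g : ℝ, n = 4 → RwH H hTop hF h o g → Pool.Z4.Cfg hn P P' o l g →
      (RwH H hTop hF h o g ∧ Xa hn P P' PB o l g ∧ Y o g) →
      CokP (TopP n) (fun j => deriv (fun v => LL hn P P' o (ix l j + 1) v v) g)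
        (deriv (fun v => LL hn P P' o (l + 1) v v) g) → False := by
    by_cases h4 : n = 4
    · filter_upwards [hc0_cP H hTop hF1 hF hn4 hW (topP_meas n) (hT h4) hh
        (X := fun o l g => RwH H hTop hF h o g ∧ Xa hn P P' PB o l g ∧ Y o g) hMev o l]
        with g k _
      exact k
    · exact Eventually.of_forall fun g h5 => absurd h5 h4
  filter_upwards [h1, h2] with g k1 k2 R hX hY hlt
  have hl1 := hX.cfg.l1
  have hln := hX.cfg.ln
  -- the slot of the target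
  have hix : n = 4 → ix l 2 = n - 1 := fun h4 => by
    unfold ix
    split_ifs <;> omega
  by_cases htie : ∃ i, 1 ≤ i ∧ i < n - 1 ∧ i ≠ l ∧
      deriv (fun a => LL hn P P' o (i + 1) a a) g = deriv (fun a => LL hn P P' o (l + 1) a a) g
  · -- a tie
    obtain ⟨i, i1, i2, i3, i4⟩ := htie
    have h4 : n = 4 := by omega
    have hck : Cok (TopC n) (fun j => deriv (fun v => LL hn P P' o (ix l j + 1) v v) g)
        (deriv (fun v => LL hn P P' o (l + 1) v v) g) := by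
      refine cok_top (τ := fun i => deriv (fun v => LL hn P P' o (i + 1) v v) g) ?_
        fun j j1 j2 j3 => ?_
      · have := hX.two
        linarith
      · have htwo := hX.two
        rcases j2.eq_or_lt with h5 | h5
        · subst h5
          show 2 ≤ deriv (fun v => LL hn P P' o (n - 1 + 1) v v) g ∧
            deriv (fun v => LL hn P P' o (n - 1 + 1) v v) g ≤ _
          rw [eP]
          exact ⟨htwo, hlt.le⟩
        · have h6 : j = i := by omega
          rw [h6]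
          show 2 ≤ deriv (fun v => LL hn P P' o (i + 1) v v) g ∧
            deriv (fun v => LL hn P P' o (i + 1) v v) g ≤ _
          rw [i4]
          exact ⟨by linarith, le_rfl⟩
    refine k2 h4 R hX.cfg ⟨R, hX, hY⟩ fun s s0 π s1 s2 =>
      ⟨(cok_perm hck) s s0 π s1 s2, fun a b ha hb hab hs => ?_⟩
    obtain ⟨-, h7⟩ := perm_two hn4 ha hb hab (fun i hi => ⟨(s1 i hi).1, (s1 i hi).2.1⟩) s2
    have hother : ix l 1 = i := by
      unfold ix
      split_ifs <;> omega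
    have e1 := (s1 a ha).2.2
    have e2 := (s1 b hb).2.2
    have key : deriv (fun v => LL hn P P' o (ix l 2 + 1) v v) g <
        deriv (fun v => LL hn P P' o (ix l 1 + 1) v v) g := by
      rw [hix h4, eP, hother, i4]
      exact hlt
    rcases h7 with ⟨h8, h9⟩ | ⟨h8, h9⟩
    · rw [h8] at e1
      rw [h9] at e2
      rw [e1, e2] at hs
      exact absurd hs key.ne
    · rw [h9] at e1
      rw [h8] at e2
      rw [e1, e2] at hs
      exact absurd hs key.ne'
  · push Not at htie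
    refine k1 R hX.cfg ⟨R, hX, hY⟩ fun s h2 π h3 h3' =>
      ⟨⟨fun i => ?_, fun i hi => ?_⟩, fun a b ha hb hab hs => ?_⟩
    · rcases Nat.eq_zero_or_pos (i : ℕ) with h5 | h5
      · rw [h2 i h5]
        exact hX.cfg.one.ne
      · obtain ⟨hj1, hj2, hj3⟩ := h3 i h5
        rw [hj3]
        show deriv (fun v => LL hn P P' o (ix l (π i) + 1) v v) g ≠ _
        have h6 : 1 ≤ ix l (π i) := by
          unfold ix
          split_ifs <;> omega
        have h7 : ix l (π i) ≠ l := by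
          unfold ix
          split_ifs <;> omega
        rcases (ix_le (l := l) hj2).eq_or_lt with h8 | h8
        · rw [h8, eP]
          exact hlt.ne
        · exact htie _ h6 h8 h7
    · obtain ⟨hj1, hj2, hj3⟩ := h3 i hi
      rw [hj3]
      show 1 < deriv (fun v => LL hn P P' o (ix l (π i) + 1) v v) g
      have h6 : 1 ≤ ix l (π i) := by
        unfold ix
        split_ifs <;> omega
      rcases (ix_le (l := l) hj2).eq_or_lt with h8 | h8
      · rw [h8, eP]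
        linarith [hX.two]
      · exact hX.one1 _ h6 h8
    · obtain ⟨h4, h7⟩ := perm_two hn4 ha hb hab (fun i hi => ⟨(h3 i hi).1, (h3 i hi).2.1⟩) h3'
      have e1 := (h3 a ha).2.2
      have e2 := (h3 b hb).2.2
      have key : deriv (fun v => LL hn P P' o (ix l 2 + 1) v v) g <
          deriv (fun v => LL hn P P' o (l + 1) v v) g := by
        rw [hix h4, eP]
        exact hlt
      rcases h7 with ⟨h8, h9⟩ | ⟨h8, h9⟩
      · rw [e1, h8]
        exact key
      · rw [hs, e2, h8]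
        exact key

end Pool.SW

namespace Pool.MV

open MeasureTheory Set Filter Topology
open Pool.Agent.H49.Ent Pool.Agent.H32.Dense Pool.STK Pool.KA Pool.KSAT Pool.K2S Pool.PB
open Pool.GEN Pool.S6C Pool.STAT Pool.CHT Pool.GRW Pool.ONE Pool.STA Pool.PKG Pool.ZFN Pool.TOP
open Pool.Z4
open Pool.LBT (LSys ThrOf)
open Pool.LEV (Law Lv)
open Pool.ALL (RateOf)
open Pool.STR (NumI StaAt ThinAt SteepAt MicW)
open Pool.EXW
open Pool.ISO (lvN)
open Pool.SW (Xa NtP TopP hc0_bP)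

variable {n : ℕ} {hn : 2 ≤ n} {S : PCl n} {P : ℝ → ℝ → ℝ} {r : ℝ → ℝ}
  {P' : ℕ → List (Fin n) × Fin n → ℝ → ℝ → ℝ} {Λ : Finset (Fin n) → Fin n → ℝ → ℝ → ℝ}
  {PB : ℕ → List (Fin n) × Fin n → ℝ → ℝ → ℝ}

/-- **The static chains** in the induction over the dimension (`n ≤ 4`), from no boxes at the windows
with one contact coordinate; the data on the events are needed only near the windows near which the
order is greedy up to `o (R)`. -/
theorem nore_ind8P {η : ℝ → ℝ} (hMic : LocE n η MicRt) (hi : ∀ k, 2 ≤ k → k < n → Ext0 k)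
    (hn : 2 ≤ n) (hn4 : n ≤ 4) (hZ : ∀ k, 1 ≤ k → k < n → FZX k) (hF : FZX (n - 1))
    (hTop : TopS n)
    {D : ℝ} (hD : 0 < D) (hD1 : D ≤ 1) (hη : 0 < η D) (hη1 : η D ≤ 1)
    (hE : Ext n ((1 + η D) * D)) (H : PkT hn S P r P' Λ PB)
    (hV : V0C H hTop hF ((1 - η D) * D))
    (hbig : ∀ o : Od n, ∀ᵐ g : ℝ, RwH H hTop hF ((1 - η D) * D) o g →
      1 < deriv (fun a => P a a) g → StaAt P g → One1 hn P P' o g → ∀ i, 1 ≤ i → i < n - 1 →
      (∀ l < i, ThS hn P P' PB o l g) →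
      2 < deriv (fun a => LL hn P P' o (i + 1) a a) g →
      SteepAt 2 (LvT hn PB o i) g → StaAt (LL hn P P' o (i + 1)) g)
    (hVn : VAll hn hTop hF (NtP n)) (hT : n = 4 → VAll hn hTop hF (TopP n))
    {Y : Od n → ℝ → Prop}
    (hY : ∀ o : Od n, ∀ᵐ g : ℝ, g ∈ Gs P r P' Λ o → Y o g)
    (hMev : ∀ (o : Od n) (l : ℕ), 1 ≤ l → l < n - 1 → MevY hn S P r P' Λ o l
        (fun g => RwH H hTop hF ((1 - η D) * D) o g ∧ Xa hn P P' PB o l g ∧ DfO hn P' o g ∧
          Y o g)) :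
    NoRE H hTop hF ((1 - η D) * D) := by
  have h1 : (1 - η D) * D < 1 := by nlinarith
  have h0 : 0 ≤ (1 - η D) * D := mul_nonneg (by linarith) hD.le
  have hW := rw_all hZ fun k k1 k2 => rowN_of_ext (hi k k1 k2)
  have hM := mic_pk hMic hn hZ hD hD1 hE H.toPk
  have hR : NoRY H hTop hF ((1 - η D) * D) fun o g => DfO hn P' o g ∧ Y o g := by
    refine nore_of5Y H hTop hF h0 hM hV hbig (fun o l => ?_) fun o l => ?_
    · filter_upwards [cnt_mevY H hTop (hZ 1 le_rfl (by omega)) hF hW h0 h1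
        (fun al g₀ hal hg₀ N S' P r h2 h3 h4 E =>
          rgFull_locRt hMic hn hZ hD hD1 hη1 hE hal hg₀ h2 h3 h4 E) hMev o l]
        with g k1 R hX hY
      exact k1 R.rwd.mem hX.cfg ⟨R, ⟨hX.sta, hX.two, hX.one1, hX.ths, hX.cfg⟩, hY⟩
    · filter_upwards [hc0_bP H hTop (hZ 1 le_rfl (by omega)) hF hn4 hW hVn hT h0 hMev o l]
        with g k1 R hX hY h6
      exact k1 R hX hY h6
  refine nore_dfo H hTop hF hn4 (win_ths H hTop hF hM hV hbig) fun o => ?_
  filter_upwards [hR o, hY o] with g k1 k2 R hS hDf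
  exact k1 R hS ⟨hDf, k2 R.rwd.mem⟩

end Pool.MV
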