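import Pool.Agent.H56.SLT.Cnt
import Pool.Agent.H82.MV.Fin5

/-!
# The exchange of the target and a rough coordinate of the base, for all kinds of the target

`hc0_gP`: as `hc0_cP`, for general configurations: the target need not be static.
`Xd`: the windows of the exchange in dimension four: one contact coordinate, the base is thin or
static, the coordinate `l` is rough, the coordinates of the base after it are static.
`mevY_d`: the data on the events near the windows `Xd`, for all packages.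
-/

set_option autoImplicit false

namespace Pool.SW

open MeasureTheory Set Filter Topology
open Finset (range univ)
open Pool.Agent.H49.Ent Pool.Agent.H32.Dense Pool.STK Pool.KA Pool.KSAT Pool.K2S Pool.PB Pool.S6C
open Pool.GEN Pool.ONE Pool.EXW Pool.TOP Pool.ZCL Pool.ZLC Pool.ZFN Pool.ZCO Pool.PKG Pool.CHT
open Pool.Z4 Pool.ZL
open Pool.LBT (ThrOf)
open Pool.LEV (Law)
open Pool.ALL (RateOf)
open Pool.ZFI (LF ll_law ll_bd01 aff_der aff_dg right_ae zwd_of)

variable {n : ℕ} {hn : 2 ≤ n} {S : PCl n} {P : ℝ → ℝ → ℝ} {r : ℝ → ℝ}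
  {P' : ℕ → List (Fin n) × Fin n → ℝ → ℝ → ℝ} {Λ : Finset (Fin n) → Fin n → ℝ → ℝ → ℝ}
  {PB : ℕ → List (Fin n) × Fin n → ℝ → ℝ → ℝ}

/-- **The count with no loss**, for general configurations. -/
theorem hc0_gP (H : PkT hn S P r P' Λ PB) (hTop : TopS n) (hF1 : FZX 1) (hF : FZX (n - 1))
    (hn4 : n ≤ 4) (hW : ∀ k, 2 ≤ k → k < n → RW k) {C' : (Fin (n - 1) → ℝ) → ℝ → Prop}
    (hCm : MeasurableSet {p : (Fin (n - 1) → ℝ) × ℝ | C' p.1 p.2}) (hV : VAll hn hTop hF C')
    {h : ℝ} (hh : 0 ≤ h) {o : Od n} {l : ℕ} (hl1 : 1 ≤ l) (hl2 : l < n - 1) {X : ℝ → Prop}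
    (hMev : MevY hn S P r P' Λ o l X) :
    ∀ᵐ g : ℝ, RwH H hTop hF h o g → (∃ la t : ℕ → ℝ, Pool.ZFI.Cfg hn P P' o l g la t ∧ la l = 1) →
      X g → CokP C' (fun j => deriv (fun v => LL hn P P' o (ix l j + 1) v v) g)
        (deriv (fun v => LL hn P P' o (l + 1) v v) g) → False := by
  obtain ⟨al, g₀, s, d, e, K₀, N, hal, hg₀, hC⟩ := H.toPk.cl
  filter_upwards [nore_cnt0P H.toPk hTop hF1 hF hn4 hW hCm hV hal hg₀ hC hl1 hl2 hMev]
    with g h1 R hCf hX hck
  have hg := R.rwd.mem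
  have h2 := h1 hg hCf hck hX
  have hdg : (H.nk hTop hF).dg o (n - 1) = fun a => P a a := (H.nk hTop hF).dg_m o
  have hone : 1 ≤ deriv (fun a => P a a) g := by
    have h3 := R.rwd.one (n - 1) le_rfl
    rwa [hdg] at h3
  have h3 := R.defi
  have h4 : 0 < deriv (fun a => P a a) g * (1 - deriv r (P g g)) :=
    mul_pos (by linarith) (by linarith)
  linarith

end Pool.SW

namespace Pool.MV

open MeasureTheory Set Filter Topology
open Pool.Agent.H49.Ent Pool.Agent.H32.Dense Pool.STK Pool.KA Pool.KSAT Pool.K2S Pool.PB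
open Pool.GEN Pool.S6C Pool.STAT Pool.CHT Pool.GRW Pool.ONE Pool.STA Pool.PKG Pool.ZFN Pool.TOP
open Pool.Z4
open Pool.LBT (LSys ThrOf)
open Pool.LEV (Law Lv)
open Pool.ALL (RateOf)
open Pool.STR (NumI StaAt ThinAt SteepAt MicW)
open Pool.EXW
open Pool.ISO (lvN)
open Pool.ZL (AffA)
open Pool.ZFI (LF)

variable {n : ℕ} {hn : 2 ≤ n} {S : PCl n} {P : ℝ → ℝ → ℝ} {r : ℝ → ℝ}
  {P' : ℕ → List (Fin n) × Fin n → ℝ → ℝ → ℝ} {Λ : Finset (Fin n) → Fin n → ℝ → ℝ → ℝ}
  {PB : ℕ → List (Fin n) × Fin n → ℝ → ℝ → ℝ}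

/-- **The windows of the exchange**: one contact coordinate, the base is thin or static, the
coordinate `l` is rough, the coordinates of the base after it are static. -/
structure Xd (hn : 2 ≤ n) (P : ℝ → ℝ → ℝ) (P' PB : ℕ → List (Fin n) × Fin n → ℝ → ℝ → ℝ)
    (o : Od n) (l : ℕ) (g : ℝ) : Prop where
  one1 : One1 hn P P' o g
  ths : ∀ i < n - 1, ThS hn P P' PB o i g
  dif : ∀ i ≤ n - 1, DifferentiableAt ℝ (fun a => LL hn P P' o (i + 1) a a) g
  lt : ∀ i ≤ n - 1, LL hn P P' o (i + 1) g g < 1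
  rg : RgUp (LL hn P P' o (l + 1)) g (LL hn P P' o (l + 1) g g)
    (deriv (fun a => LL hn P P' o (l + 1) a a) g)
  sta : ∀ i, l < i → i < n - 1 → StaAt (LL hn P P' o (i + 1)) g

/-- **The data on the events** near the windows `Xd` in dimension four, for all packages. -/
theorem mevY_d (h4 : n = 4) (H : PkT hn S P r P' Λ PB) (hTop : TopS n) (hF : FZX (n - 1)) :
    ∃ Y : Od n → ℝ → Prop, (∀ o : Od n, ∀ᵐ g : ℝ, g ∈ Gs P r P' Λ o → Y o g) ∧
      ∀ (o : Od n) (l : ℕ), 1 ≤ l → l < n - 1 → MevY hn S P r P' Λ o l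
        (fun g => Xd hn P P' PB o l g ∧ DfO hn P' o g ∧ Y o g) := by
  refine ⟨fun o g => DgL hn P P' o g ∧ (HasDerivAt (fun v => LF hn P P' o 0 v v) 1 g ∧
      AffA (LF hn P P' o 0) g 1 0) ∧ ∀ l ≤ n - 1, ThS hn P P' PB o l g →
      StaAt (LL hn P P' o (l + 1)) g ∨ RgUp (LL hn P P' o (l + 1)) g (LL hn P P' o (l + 1) g g)
        (deriv (fun a => LL hn P P' o (l + 1) a a) g), fun o => ?_, fun o l hl1 hl => ?_⟩
  · filter_upwards [Pool.ASM.act_aff H hTop hF, Pool.ASM.one_act H.toPk hTop hF, rg_ths H hTop hF,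
      H.toPk.dgL_ae] with g k1 k2 k3 k4 hg
    exact ⟨k4 hg.1.1.1 hg.1.1.2.1 o, ⟨k2 o hg, k1 o hg⟩, k3 o hg⟩
  · refine mevY_of H.toPk hTop hF hl (fun g hg hX => ?_)
      fun g hg hX E ϱ hE hϱ hroom i hi1 hi2 => ?_
    · obtain ⟨hXa, hDf, hDg, -, -⟩ := hX
      refine ⟨hDg, hDf, deriv (fun a => LL hn P P' o (l + 1) a a) g - 1, ?_⟩
      have g0 : 0 < g := hg.1.1.1
      have g1 : g < 1 := hg.1.1.2.1
      exact Pool.ZL.aff_rg (Z4.ll_law H.toPk o hl.le) g0 g1 (hXa.lt l hl.le) hXa.rg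
        (Pool.STR.dgLo_of (hXa.dif l hl.le))
    · obtain ⟨hX, hDf, hDg, ⟨hY1, hY2⟩, hY3⟩ := hX
      have g0 : 0 < g := hg.1.1.1
      have g1 : g < 1 := hg.1.1.2.1
      have hone : 1 < deriv (fun a => LL hn P P' o (l + 1) a a) g := hX.one1 l hl1 hl
      have ht : 0 < deriv (fun a => LL hn P P' o (l + 1) a a) g - 1 := by linarith
      have hA : AffA (LF hn P P' o l) g 1 (deriv (fun a => LL hn P P' o (l + 1) a a) g - 1) :=
        Pool.ZL.aff_rg (Z4.ll_law H.toPk o hl.le) g0 g1 (hX.lt l hl.le) hX.rg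
          (Pool.STR.dgLo_of (hX.dif l hl.le))
      have e1 : l = 1 ∨ l = 2 := by omega
      have e2 : i = 2 ∨ i = 3 := by omega
      rcases e1 with rfl | rfl <;> rcases e2 with rfl | rfl
      · exact Pool.NVX.nvU_12 H.toPk hTop hF (by omega) hg hDg hDf hY1 hA ht hE hϱ hroom
      · have hA2 := Pool.Z4.aff_sta (P := LF hn P P' o 2) (Z4.ll_law H.toPk o (i := 2) (by omega))
          g0 g1 (hX.dif 2 (by omega)) (hX.sta 2 (by omega) (by omega))
        exact Pool.NVX.nvU_13 H.toPk hTop hF (by omega) hg hDg hDf hY2 hA ht hA2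
          (hX.one1 2 (by omega) (by omega)) hE hϱ hroom
      · omega
      · by_cases hst : StaAt (LL hn P P' o 2) g
        · have hA1 := Pool.Z4.aff_sta (P := LF hn P P' o 1)
            (Z4.ll_law H.toPk o (i := 1) (by omega)) g0 g1 (hX.dif 1 (by omega)) hst
          exact Pool.NVX.nvU_23b (fun D hD => Pool.NVX.nvdB_all n D hD) H.toPk hTop hF (by omega)
            hg hDg hDf hY2 hA1 (hX.one1 1 le_rfl (by omega)) hA ht hE hϱ hroom
        · have hone' : 1 < deriv (fun a => LL hn P P' o (1 + 1) a a) g :=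
            hX.one1 1 le_rfl (by omega)
          have hrg : RgUp (LL hn P P' o (1 + 1)) g (LL hn P P' o (1 + 1) g g)
              (deriv (fun a => LL hn P P' o (1 + 1) a a) g) :=
            (hY3 1 (by omega) (hX.ths 1 (by omega))).resolve_left hst
          have hA1 : AffA (LF hn P P' o 1) g 1
              (deriv (fun a => LL hn P P' o (1 + 1) a a) g - 1) :=
            Pool.ZL.aff_rg (Z4.ll_law H.toPk o (by omega)) g0 g1 (hX.lt 1 (by omega)) hrg
              (Pool.STR.dgLo_of (hX.dif 1 (by omega)))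
          subst h4
          exact Pool.NVX.nvU_23t
            (fun D M hD => Pool.NVX.nvd_t (Pool.NVX.nb_t (Pool.NVX.nv_t3 4 D (M + 1) hD)))
            H.toPk hTop hF (by omega) hg hDg hDf hY1 hY2 hA1 (by linarith) hA ht hE hϱ hroom

end Pool.MV

namespace Pool.MV

open MeasureTheory Set Filter Topology
open Pool.Agent.H49.Ent Pool.Agent.H32.Dense Pool.STK Pool.KA Pool.KSAT Pool.K2S Pool.PB
open Pool.GEN Pool.S6C Pool.STAT Pool.CHT Pool.GRW Pool.ONE Pool.STA Pool.PKG Pool.ZFN Pool.TOP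
open Pool.Z4
open Pool.LBT (LSys ThrOf)
open Pool.LEV (Law Lv)
open Pool.ALL (RateOf)
open Pool.STR (NumI StaAt ThinAt SteepAt MicW)
open Pool.EXW
open Pool.ISO (lvN)
open Pool.ZL (AffA)
open Pool.ZFI (LF)
open Pool.SW (hc0_gP)

variable {n : ℕ} {hn : 2 ≤ n} {S : PCl n} {P : ℝ → ℝ → ℝ} {r : ℝ → ℝ}
  {P' : ℕ → List (Fin n) × Fin n → ℝ → ℝ → ℝ} {Λ : Finset (Fin n) → Fin n → ℝ → ℝ → ℝ}
  {PB : ℕ → List (Fin n) × Fin n → ℝ → ℝ → ℝ}

/-- **The exchange** of the target and the rough coordinate `l` of the base, in dimension four, for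
all packages: there are no windows with one contact coordinate, a thin or static base, a greedy order,
a rough coordinate `l` such that the coordinates of the base after it are static and the target is
static or rough and slower, if the slopes of the slots after the exchange have the property `C'` and
there are no boxes at the windows `C'`. -/
theorem exch_l (h4 : n = 4) (H : PkT hn S P r P' Λ PB) (hTop : TopS n) (hF1 : FZX 1)
    (hF : FZX (n - 1)) (hW : ∀ k, 2 ≤ k → k < n → Pool.TOP.RW k) {C' : (Fin (n - 1) → ℝ) → ℝ → Prop}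
    (hCm : MeasurableSet {p : (Fin (n - 1) → ℝ) × ℝ | C' p.1 p.2}) (hV : VAll hn hTop hF C')
    {h : ℝ} (hh : 0 ≤ h) (o : Od n) :
    ∀ᵐ g : ℝ, RwH H hTop hF h o g → One1 hn P P' o g → (∀ i < n - 1, ThS hn P P' PB o i g) →
      (StaAt P g ∨ RgUp P g (P g g) (deriv (fun a => P a a) g)) → DfO hn P' o g →
      ∀ l, 1 ≤ l → l < n - 1 → ¬ StaAt (LL hn P P' o (l + 1)) g →
      (∀ i, l < i → i < n - 1 → StaAt (LL hn P P' o (i + 1)) g) →
      (¬ StaAt P g → deriv (fun a => P a a) g < deriv (fun a => LL hn P P' o (l + 1) a a) g) →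
      CokP C' (fun j => deriv (fun v => LL hn P P' o (ix l j + 1) v v) g)
        (deriv (fun v => LL hn P P' o (l + 1) v v) g) → False := by
  obtain ⟨Y, hY, hMev⟩ := mevY_d (PB := PB) h4 H hTop hF
  have hall : ∀ᵐ g : ℝ, ∀ l : ℕ, 1 ≤ l → l < n - 1 → RwH H hTop hF h o g →
      (∃ la t : ℕ → ℝ, Pool.ZFI.Cfg hn P P' o l g la t ∧ la l = 1) →
      (Xd hn P P' PB o l g ∧ DfO hn P' o g ∧ Y o g) →
      CokP C' (fun j => deriv (fun v => LL hn P P' o (ix l j + 1) v v) g)
        (deriv (fun v => LL hn P P' o (l + 1) v v) g) → False := by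
    refine ae_all_iff.2 fun l => ?_
    by_cases hl : 1 ≤ l ∧ l < n - 1
    · filter_upwards [hc0_gP H hTop hF1 hF h4.le hW hCm hV hh hl.1 hl.2 (hMev o l hl.1 hl.2)]
        with g k _ _
      exact k
    · exact Eventually.of_forall fun g h1 h2 => absurd ⟨h1, h2⟩ hl
  filter_upwards [hall, hY o, rg_ths H hTop hF] with g k1 k2 k3 R hone hths hP hDf l hl1 hl hns
    hsta hlt hck
  have hg := R.rwd.mem
  have g0 : 0 < g := hg.1.1.1
  have g1 : g < 1 := hg.1.1.2.1
  have hdg : ∀ i ≤ n - 1, (H.nk hTop hF).dg o i = fun a => LL hn P P' o (i + 1) a a :=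
    fun i hi => by
      funext a
      exact H.dg_eq hTop hF o hi a
  have hdif : ∀ i ≤ n - 1, DifferentiableAt ℝ (fun a => LL hn P P' o (i + 1) a a) g :=
    fun i hi => by
      rw [← hdg i hi]
      exact R.rwd.dif i hi
  have hlt1 : ∀ i ≤ n - 1, LL hn P P' o (i + 1) g g < 1 := fun i hi => by
    have := R.rwd.lt i hi
    rwa [hdg i hi] at this
  have hrg := (k3 o hg l hl.le (hths l hl)).resolve_left hns
  have hX : Xd hn P P' PB o l g := ⟨hone, hths, hdif, hlt1, hrg, hsta⟩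
  have hS1 : 1 < deriv (fun a => LL hn P P' o (l + 1) a a) g := hone l hl1 hl
  classical
  refine k1 l hl1 hl R ⟨fun i => if StaAt (LL hn P P' o (i + 1)) g then
      deriv (fun v => LL hn P P' o (i + 1) v v) g else 1,
    fun i => if StaAt (LL hn P P' o (i + 1)) g then 0 else
      deriv (fun v => LL hn P P' o (i + 1) v v) g - 1, ⟨fun i hi hin => ?_, ?_, ?_,
        fun i hi hin => ?_⟩, ?_⟩ ⟨hX, hDf, k2 hg⟩ hck
  · by_cases hs : StaAt (LL hn P P' o (i + 1)) g
    · rw [if_pos hs, if_pos hs]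
      exact Pool.Z4.aff_sta (P := LF hn P P' o i) (Z4.ll_law H.toPk o (i := i) (by omega)) g0 g1
        (hdif i (by omega)) hs
    · rw [if_neg hs, if_neg hs]
      have hr : RgUp (LL hn P P' o (i + 1)) g (LL hn P P' o (i + 1) g g)
          (deriv (fun a => LL hn P P' o (i + 1) a a) g) := by
        rcases hi.eq_or_lt with h1 | h1
        · rw [← h1]
          exact hrg
        · rcases Nat.lt_or_ge i (n - 1) with h2 | h2
          · exact absurd (hsta i h1 h2) hs
          · have h3 : i = n - 1 := by omega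
            rw [h3, LL_lst] at hs ⊢
            exact hP.resolve_left hs
      exact Pool.ZL.aff_rg (Z4.ll_law H.toPk o (by omega)) g0 g1 (hlt1 i (by omega)) hr
        (Pool.STR.dgLo_of (hdif i (by omega)))
  · show (1 : ℝ) ≤ if StaAt (LL hn P P' o (l + 1)) g then
      deriv (fun v => LL hn P P' o (l + 1) v v) g else 1
    rw [if_neg hns]
  · show (0 : ℝ) < if StaAt (LL hn P P' o (l + 1)) g then 0 else
      deriv (fun v => LL hn P P' o (l + 1) v v) g - 1
    rw [if_neg hns]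
    linarith
  · show (if StaAt (LL hn P P' o (i + 1)) g then (0 : ℝ) else
      deriv (fun v => LL hn P P' o (i + 1) v v) g - 1) < if StaAt (LL hn P P' o (l + 1)) g then 0
        else deriv (fun v => LL hn P P' o (l + 1) v v) g - 1
    rw [if_neg hns]
    by_cases hs : StaAt (LL hn P P' o (i + 1)) g
    · rw [if_pos hs]
      linarith
    · rw [if_neg hs]
      rcases Nat.lt_or_ge i (n - 1) with h2 | h2
      · exact absurd (hsta i hi h2) hs
      · have h3 : i = n - 1 := by omega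
        rw [h3, LL_lst] at hs ⊢
        have := hlt hs
        linarith
  · show (if StaAt (LL hn P P' o (l + 1)) g then
      deriv (fun v => LL hn P P' o (l + 1) v v) g else 1) = (1 : ℝ)
    rw [if_neg hns]

end Pool.MV
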