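import Pool.Agent.H19.SW.Cr

/-!
# The base slopes are a permutation of the slopes of the slots

`PkT.base_slotsP`: as `PkT.base_slots`, the slopes of the coordinates before the last one are a
permutation of the slopes of the slots. `CokP`: every family of slopes which is a permutation of the
slopes of the slots has the property. `rows_cP`: the rows of the rough windows.
-/

set_option autoImplicit false

namespace Pool.PKG

open MeasureTheory Set Filter Topology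
open Pool.Agent.H49.Ent Pool.Agent.H32.Dense Pool.STK Pool.KA Pool.KSAT Pool.K2S Pool.PB
open Pool.GEN Pool.S6C Pool.STAT Pool.CHT Pool.GRW Pool.ONE Pool.STA
open Pool.LBT (LSys ThrOf)
open Pool.LBN (cof)
open Pool.ALL (RateOf)
open Pool.TOP (T1c T2c TopS LbR RW)
open Pool.BSM (Cel)
open Pool.SW (LowE CelE LabE cel_low pair_deriv)
open Finset (range univ)

variable {n : ℕ} {hn : 2 ≤ n} {S : PCl n} {P : ℝ → ℝ → ℝ} {r : ℝ → ℝ}
  {P' : ℕ → List (Fin n) × Fin n → ℝ → ℝ → ℝ} {Λ : Finset (Fin n) → Fin n → ℝ → ℝ → ℝ}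
  {PB : ℕ → List (Fin n) × Fin n → ℝ → ℝ → ℝ}

/-- **The base slopes are a permutation of the slopes of the slots.** -/
theorem PkT.base_slotsP (H : PkT hn S P r P' Λ PB) (hTop : TopS n) (hF : FZX (n - 1))
    (hn4 : n ≤ 4) (hW : ∀ k, 2 ≤ k → k < n → Pool.TOP.RW k) {R b₁ : ℝ} (hR : 0 ≤ R) {X E : Set ℝ}
    (hE : ∀ g ∈ E, 0 < g ∧ g < b₁ ∧ (∀ δ : ℝ, 0 < δ → ∃ x ∈ X, g < x ∧ x < g + δ) ∧
      ∀ δ : ℝ, 0 < δ → ∃ x ∈ X, g - δ < x ∧ x < g) {q : ℕ → ℝ → ℝ}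
    (hqd : ∀ i, 1 ≤ i → i < n - 1 → ∀ᵐ g : ℝ, g ∈ E → DifferentiableAt ℝ (q i) g)
    (hqg : ∀ i, 1 ≤ i → i < n - 1 → ∀ g ∈ E, g ≤ q i g)
    (hq1 : ∀ i, 1 ≤ i → i < n - 1 → ∀ g ∈ E, q i g ≤ 1)
    (hQ : SlqX S R b₁ X q) :
    ∀ᵐ g : ℝ, g ∈ E → ∀ o : Od n, g ∈ Gs P r P' Λ o →
      deriv ((H.nk hTop hF).dg o 0) g = 1 ∧ ∃ π : ℕ → ℕ, (∀ l, 1 ≤ l → l < n - 1 →
        1 ≤ π l ∧ π l < n - 1 ∧ deriv ((H.nk hTop hF).dg o l) g = deriv (q (π l)) g) ∧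
        ∀ i j, 1 ≤ i → i < n - 1 → 1 ≤ j → j < n - 1 → π i = π j → i = j := by
  have hdg : ∀ (o : Od n) (i : ℕ), i < n - 1 → (H.nk hTop hF).dg o i = Dg hn P' o i := by
    intro o i hi
    funext a
    unfold Pool.STR.NumI.dg
    exact dif_pos hi
  have hmono : ∀ (o : Od n) (i : ℕ), ∀ᵐ g : ℝ, 0 < g → g < 1 →
      DifferentiableAt ℝ (Dg hn P' o i) g := by
    intro o i
    have h1 := (dg_mono (H.cht o.2) ((List.range i).map (cc hn o.1.1), cc hn o.1.1 i)).ae_differentiableAt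
    filter_upwards [h1] with g h2 h0 h1'
    refine h2.congr_of_eventuallyEq ?_
    filter_upwards [Ioo_mem_nhds h0 h1'] with v hv
    show bet (P' o.2) (cc hn o.1.1) i v v =
      P' o.2 ((List.range i).map (cc hn o.1.1), cc hn o.1.1 i) (max 0 (min v 1)) (max 0 (min v 1))
    rw [min_eq_left hv.2.le, max_eq_right hv.1.le]
    rfl
  have h1 : ∀ᵐ g : ℝ, ∀ o : Od n, ∀ i, 0 < g → g < 1 → DifferentiableAt ℝ (Dg hn P' o i) g :=
    ae_all_iff.2 fun o => ae_all_iff.2 fun i => hmono o i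
  have h2 : ∀ᵐ g : ℝ, ∀ i, 1 ≤ i → i < n - 1 → g ∈ E → DifferentiableAt ℝ (q i) g := by
    refine ae_all_iff.2 fun i => ?_
    by_cases hi : 1 ≤ i ∧ i < n - 1
    · filter_upwards [hqd i hi.1 hi.2] with g h3 _ _
      exact h3
    · exact ae_of_all _ fun g h3 h4 => absurd ⟨h3, h4⟩ hi
  obtain ⟨T, hT⟩ : ∃ T : Od n → Set ℝ, T = fun o => {g | g ∈ Gs P r P' Λ o ∧ g ∈ E ∧
      (∀ i, DifferentiableAt ℝ (Dg hn P' o i) g) ∧
      ∀ i, 1 ≤ i → i < n - 1 → DifferentiableAt ℝ (q i) g} := ⟨_, rfl⟩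
  have hT' : ∀ o g, g ∈ T o → g ∈ Gs P r P' Λ o ∧ g ∈ E ∧
      (∀ i, DifferentiableAt ℝ (Dg hn P' o i) g) ∧
      ∀ i, 1 ≤ i → i < n - 1 → DifferentiableAt ℝ (q i) g := by
    intro o g hg
    rw [hT] at hg
    exact hg
  -- the first coordinate
  have h3 : ∀ᵐ g : ℝ, ∀ o : Od n, g ∈ T o → deriv (Dg hn P' o 0) g = deriv (fun v => v) g := by
    refine ae_all_iff.2 fun o => Pool.BSM.deriv_eq_ae (fun g hg => ?_) (fun g hg => ?_)
      fun g hg => differentiableAt_id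
    · exact H.toPk.gw_zero hTop hF (hT' o g hg).1
    · exact (hT' o g hg).2.2.1 0
  -- the identical order
  have h4 : ∀ᵐ g : ℝ, ∀ o : Od n, ∀ i : ℕ, 1 ≤ i → i < n - 1 →
      (∀ l : Fin (n - 1), o.1.1 l = l) → g ∈ T o → deriv (Dg hn P' o i) g = deriv (q i) g := by
    refine ae_all_iff.2 fun o => ae_all_iff.2 fun i => ?_
    by_cases hi : 1 ≤ i ∧ i < n - 1 ∧ ∀ l : Fin (n - 1), o.1.1 l = l
    · have h5 : ∀ᵐ g : ℝ, g ∈ T o → deriv (Dg hn P' o i) g = deriv (q i) g := by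
        refine Pool.BSM.deriv_eq_ae (fun g hg => ?_) (fun g hg => ?_) fun g hg => ?_
        · obtain ⟨k1, k2, k3, k4⟩ := hT' o g hg
          obtain ⟨-, m1, m2, m3⟩ := hE g k2
          exact H.toPk.slot_id hTop hF hW hi.2.2 k1 hR m1 m2 m3 hQ hi.1 hi.2.1
            (k4 i hi.1 hi.2.1).continuousAt (hqg i hi.1 hi.2.1 g k2) (hq1 i hi.1 hi.2.1 g k2)
        · exact (hT' o g hg).2.2.1 i
        · exact (hT' o g hg).2.2.2 i hi.1 hi.2.1
      filter_upwards [h5] with g h6 _ _ _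
      exact h6
    · exact ae_of_all _ fun g a b c => absurd ⟨a, b, c⟩ hi
  -- the exchanged order
  have h5 : ∀ᵐ g : ℝ, ∀ o : Od n, (∃ i₁ i₂ : Fin (n - 1), (i₁ : ℕ) = 1 ∧ (i₂ : ℕ) = 2 ∧ n = 4 ∧
      o.1.1 i₁ = i₂ ∧ o.1.1 i₂ = i₁) → g ∈ T o →
      (deriv (Dg hn P' o 1) g = deriv (q 1) g ∧ deriv (Dg hn P' o 2) g = deriv (q 2) g) ∨
      (deriv (Dg hn P' o 1) g = deriv (q 2) g ∧ deriv (Dg hn P' o 2) g = deriv (q 1) g) := by
    refine ae_all_iff.2 fun o => ?_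
    by_cases hi : ∃ i₁ i₂ : Fin (n - 1), (i₁ : ℕ) = 1 ∧ (i₂ : ℕ) = 2 ∧ n = 4 ∧
      o.1.1 i₁ = i₂ ∧ o.1.1 i₂ = i₁
    swap
    · exact ae_of_all _ fun g a => absurd a hi
    obtain ⟨i₁, i₂, e1, e2, hn', s1, s2⟩ := hi
    have hp1 : 1 < n - 1 := by omega
    have hp2 : 2 < n - 1 := by omega
    have hk1 : (bse i₂ : Fin n) ∉ univ.filter fun l : Fin n => (l : ℕ) < (bse i₁ : ℕ) := by
      have a1 : ((bse i₁ : Fin n) : ℕ) = 1 := e1
      have a2 : ((bse i₂ : Fin n) : ℕ) = 2 := e2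
      simp only [Finset.mem_filter, Finset.mem_univ, true_and]
      omega
    have hfac : ∀ g ∈ T o, g ∈ Gs P r P' Λ o ∧ g ∈ E ∧ 0 < g ∧ g < 1 ∧
        LowE S (univ.filter fun l : Fin n => (l : ℕ) < (bse i₁ : ℕ)) (bse i₂) g
          (Dg hn P' o 1 g) ∧
        LabE S (univ.filter fun l : Fin n => (l : ℕ) < (bse i₁ : ℕ)) (bse i₂) g
          (Dg hn P' o 1 g) ∧
        LowE S (insert (bse i₂) (univ.filter fun l : Fin n => (l : ℕ) < (bse i₁ : ℕ))) (bse i₁) g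
          (Dg hn P' o 2 g) ∧
        LabE S (insert (bse i₂) (univ.filter fun l : Fin n => (l : ℕ) < (bse i₁ : ℕ))) (bse i₁) g
          (Dg hn P' o 2 g) ∧
        LowE S (univ.filter fun l : Fin n => (l : ℕ) < (bse i₁ : ℕ)) (bse i₁) g (q 1 g) ∧
        CelE S (univ.filter fun l : Fin n => (l : ℕ) < (bse i₁ : ℕ)) (bse i₁) g (q 1 g) ∧
        Dg hn P' o 1 g < 1 ∧ Dg hn P' o 2 g < 1 ∧ g ≤ Dg hn P' o 1 g := by
      intro g hg
      obtain ⟨k1, k2, k3, k4⟩ := hT' o g hg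
      obtain ⟨m0, m1, m2, m3⟩ := hE g k2
      obtain ⟨w0, w1, hex, hvs⟩ := H.toPk.gw hTop hF k1
      obtain ⟨n1, n2, n3, n4⟩ := H.toPk.gw_swap hTop hF e1 e2 s1 s2 k1
      have l1 := SlqX.low H.toPk hW w0 w1 hR m1 m2 hQ (i := bse i₁) (show 1 ≤ (i₁ : ℕ) by omega)
        (show (i₁ : ℕ) < n - 1 by omega) (by
          have : ((bse i₁ : Fin n) : ℕ) = 1 := e1
          rw [this]
          exact (k4 1 le_rfl hp1).continuousAt) (by
          have : ((bse i₁ : Fin n) : ℕ) = 1 := e1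
          rw [this]
          exact hqg 1 le_rfl hp1 g k2)
      have l2 := SlqX.cel w0 m1 m3 hQ (i := bse i₁) (show 1 ≤ (i₁ : ℕ) by omega)
        (show (i₁ : ℕ) < n - 1 by omega) (by
          have : ((bse i₁ : Fin n) : ℕ) = 1 := e1
          rw [this]
          exact (k4 1 le_rfl hp1).continuousAt)
      have e3 : q ((bse i₁ : Fin n) : ℕ) g = q 1 g := by
        have : ((bse i₁ : Fin n) : ℕ) = 1 := e1
        rw [this]
      rw [e3] at l1 l2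
      rw [e1] at n1 n2
      rw [e2] at n3 n4
      refine ⟨k1, k2, w0, w1, n1, n2, n3, n4, l1, l2, (hvs 1 hp1).2, (hvs 2 hp2).2, ?_⟩
      have h6 := le_vs H.lam (fun i => bse (o.1.1 i)) w1.le (1 + 1)
      rw [(hvs 1 hp1).1] at h6
      exact h6
    have hpair : ∀ᵐ g : ℝ, g ∈ T o →
        (deriv (Dg hn P' o 1) g = deriv (q 1) g ∧ deriv (Dg hn P' o 2) g = deriv (q 2) g) ∨
        (deriv (Dg hn P' o 1) g = deriv (q 2) g ∧ deriv (Dg hn P' o 2) g = deriv (q 1) g) := by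
      refine pair_deriv (fun g hg => ?_) (fun g hg => ?_) (fun g hg => (hT' o g hg).2.2.1 1)
        (fun g hg => (hT' o g hg).2.2.1 2) (fun g hg => (hT' o g hg).2.2.2 1 le_rfl hp1)
        (fun g hg => (hT' o g hg).2.2.2 2 (by norm_num) hp2) (fun x hx y hy hxy => ?_)
        fun x hx y hy hxy => ?_
      · -- the sum
        obtain ⟨k1, k2, k3, k4⟩ := hT' o g hg
        obtain ⟨m0, m1, m2, m3⟩ := hE g k2
        have h6 := H.toPk.base_sumX hTop hF hW k1 hR m1 m2 m3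
          (fun i h1 h2 => (k4 i h1 h2).continuousAt) (fun i h1 h2 => hqg i h1 h2 g k2)
          (fun i h1 h2 => hq1 i h1 h2 g k2) hQ
        have e3 : Finset.range (n - 1) = Finset.range 3 := congrArg _ (by omega)
        have e4 : Finset.range (n - 2) = Finset.range 2 := congrArg _ (by omega)
        rw [e3, e4, Finset.sum_range_succ, Finset.sum_range_succ, Finset.sum_range_one,
          Finset.sum_range_succ, Finset.sum_range_one, H.toPk.gw_zero hTop hF k1] at h6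
        show bet (P' o.2) (cc hn o.1.1) 1 g g + bet (P' o.2) (cc hn o.1.1) 2 g g = q 1 g + q 2 g
        simp only [zero_add] at h6
        have e5 : (1 : ℕ) + 1 = 2 := rfl
        rw [e5] at h6
        linarith
      · -- more coordinates
        obtain ⟨k1, k2, w0, w1, n1, n2, n3, n4, l1, l2, b1, b2, b3⟩ := hfac g hg
        exact cel_low H.ne H.pos (hq1 1 le_rfl hp1 g k2)
          (celE_incl l2 (Finset.subset_insert _ _)) n3
      · obtain ⟨k1, k2, w0, w1, n1, n2, n3, n4, l1, l2, b1, b2, b3⟩ := hfac x hx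
        obtain ⟨k1', k2', w0', w1', n1', n2', n3', n4', l1', l2', b1', b2', b3'⟩ := hfac y hy
        exact Pool.SWX.exchC H.ne H.pos hk1 hxy.le w1'.le b2.le (hq1 1 le_rfl hp1 x k2) b1'.le
          n4 l2 n2'.cel n1 l1'
      · obtain ⟨k1, k2, w0, w1, n1, n2, n3, n4, l1, l2, b1, b2, b3⟩ := hfac x hx
        obtain ⟨k1', k2', w0', w1', n1', n2', n3', n4', l1', l2', b1', b2', b3'⟩ := hfac y hy
        exact Pool.SWX.exchB H.ne H.pos hk1 hxy.le w1'.le (by linarith) b1.le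
          (by linarith [hqg 1 le_rfl hp1 x k2]) b2.le (hq1 1 le_rfl hp1 y k2') n4 l2 n2.cel l2' n1
          l1 n1'
    filter_upwards [hpair] with g h6 _
    exact h6
  filter_upwards [h1, h2, h3, h4, h5] with g k1 k2 k3 k4 k5 hgE o ho
  obtain ⟨h0, hb, -⟩ := hE g hgE
  have hg1 : g < 1 := ho.1.1.2.1
  have hgT : g ∈ T o := by
    rw [hT]
    exact ⟨ho, hgE, fun i => k1 o i h0 hg1, fun i a b => k2 i a b hgE⟩
  refine ⟨?_, ?_⟩
  · rw [hdg o 0 (by omega), k3 o hgT, deriv_id'']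
  · rcases od_cases hn4 o with h6 | h6
    · exact ⟨id, fun l hl1 hl2 => ⟨hl1, hl2, by
        rw [hdg o l hl2]
        exact k4 o l hl1 hl2 h6 hgT⟩, fun i j _ _ _ _ h => h⟩
    · obtain ⟨i₁, i₂, e1, e2, hn', s1, s2⟩ := id h6
      rcases k5 o h6 hgT with h7 | h7
      · refine ⟨id, fun l hl1 hl2 => ⟨hl1, hl2, ?_⟩, fun i j _ _ _ _ h => h⟩
        rw [hdg o l hl2]
        rcases (show l = 1 ∨ l = 2 by omega) with hl | hl
        · subst hl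
          exact h7.1
        · subst hl
          exact h7.2
      · refine ⟨fun l => 3 - l, fun l hl1 hl2 => ⟨show 1 ≤ 3 - l by omega,
          show 3 - l < n - 1 by omega, ?_⟩,
          fun i j a b c d h => by
            have h' : 3 - i = 3 - j := h
            omega⟩
        rw [hdg o l hl2]
        rcases (show l = 1 ∨ l = 2 by omega) with hl | hl
        · subst hl
          exact h7.1
        · subst hl
          exact h7.2

end Pool.PKG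

namespace Pool.PKG

open MeasureTheory Set Filter Topology
open Pool.Agent.H49.Ent Pool.Agent.H32.Dense Pool.STK Pool.KA Pool.KSAT Pool.K2S Pool.PB
open Pool.GEN Pool.S6C Pool.STAT Pool.CHT Pool.GRW Pool.ONE Pool.STA Pool.EXW
open Pool.LBT (LSys ThrOf)
open Pool.LEV (Law Lv)
open Pool.ALL (RateOf)
open Pool.TOP (TopS)
open Pool.STR (NumI)
open Pool.SW (Rgh rgh_of rgFull_ae dia_der)
open Pool.ZFN (RgUp DgLo RgFull)

variable {n : ℕ} {hn : 2 ≤ n} {S : PCl n} {P : ℝ → ℝ → ℝ} {r : ℝ → ℝ}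
  {P' : ℕ → List (Fin n) × Fin n → ℝ → ℝ → ℝ} {Λ : Finset (Fin n) → Fin n → ℝ → ℝ → ℝ}
  {PB : ℕ → List (Fin n) × Fin n → ℝ → ℝ → ℝ}

/-- **The slopes of the slots** have the property `C`: every family of slopes which begins with `1`
and continues with a permutation of the slopes `τ j`. -/
def CokP (C : (Fin (n - 1) → ℝ) → ℝ → Prop) (τ : ℕ → ℝ) (σ : ℝ) : Prop :=
  ∀ s : Fin (n - 1) → ℝ, (∀ i : Fin (n - 1), (i : ℕ) = 0 → s i = 1) → ∀ π : ℕ → ℕ,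
    (∀ i : Fin (n - 1), 1 ≤ (i : ℕ) → 1 ≤ π i ∧ π i < n - 1 ∧ s i = τ (π i)) →
    (∀ i j, 1 ≤ i → i < n - 1 → 1 ≤ j → j < n - 1 → π i = π j → i = j) → C s σ

/-- **The rows of the rough windows** of a class with known numbers of the slots. -/
theorem rows_cP (hTop : TopS n) (hF : FZX (n - 1)) (hn4 : n ≤ 4)
    (hW : ∀ k, 2 ≤ k → k < n → Pool.TOP.RW k) {C : (Fin (n - 1) → ℝ) → ℝ → Prop}
    (hCm : MeasurableSet {p : (Fin (n - 1) → ℝ) × ℝ | C p.1 p.2}) (hV : VAll hn hTop hF C)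
    {s : Fin n → ℝ} {d : ℕ → ℝ} {al : ℝ} {g₀ : ℝ → ℝ} {e₀ : ℝ} {K₀ : ℕ} {N : ℚ → ℚ → ℝ}
    (hal : 0 < al) (hg₀ : ∀ ε : ℝ, 0 < ε → 0 < g₀ ε) (hC : ClX s d al g₀ e₀ K₀ N S)
    (hT : ThrOf (tgs (lst hn)) S (fun _ => P)) (hr : RateOf S (lst hn) r)
    {b₁ : ℝ} {X : Set ℝ} {q : ℕ → ℝ → ℝ}
    (hX : ∀ y : Fct n b₁ X q, Bas S (fun J F A => ¬ Bdf 8 b₁ X q y J F A))
    {E : Set ℝ} {σ : ℝ → ℝ}
    (hE : ∀ᵐ v : ℝ, v ∈ E → (0 < v ∧ v < b₁ ∧ (∀ δ : ℝ, 0 < δ → ∃ x ∈ X, v < x ∧ x < v + δ) ∧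
      ∀ δ : ℝ, 0 < δ → ∃ x ∈ X, v - δ < x ∧ x < v) ∧
      (∀ i, 1 ≤ i → i < n - 1 → DifferentiableAt ℝ (q i) v ∧ v ≤ q i v ∧ q i v ≤ 1) ∧
      CokP C (fun j => deriv (q j) v) (σ v))
    (hR : ∀ v ∈ E, ∃ D : ℝ, 0 < D ∧ RgUp P v D (σ v) ∧ DgLo P v D (σ v)) :
    RgFull P r 0 E := by
  obtain ⟨S₁, P', Λ, PB, hsub, -, H⟩ := pkT_ex hn hal hg₀ hC hT hr
  have hQ : SlqX S₁ 8 b₁ X q := (slqX_of hX).sub hsub
  have hlaw := H.tgs.law ()
  refine rgFull_ae hlaw (PkT.rgFull_c hCm H hTop hF (hV _ _ _ _ _ _ H)) ?_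
  obtain ⟨E', hE'⟩ : ∃ E' : Set ℝ, E' = {v | (0 < v ∧ v < b₁ ∧
      (∀ δ : ℝ, 0 < δ → ∃ x ∈ X, v < x ∧ x < v + δ) ∧
      ∀ δ : ℝ, 0 < δ → ∃ x ∈ X, v - δ < x ∧ x < v) ∧
      (∀ i, 1 ≤ i → i < n - 1 → DifferentiableAt ℝ (q i) v ∧ v ≤ q i v ∧ q i v ≤ 1)} := ⟨_, rfl⟩
  have hmem : ∀ v ∈ E', (0 < v ∧ v < b₁ ∧
      (∀ δ : ℝ, 0 < δ → ∃ x ∈ X, v < x ∧ x < v + δ) ∧
      ∀ δ : ℝ, 0 < δ → ∃ x ∈ X, v - δ < x ∧ x < v) ∧
      (∀ i, 1 ≤ i → i < n - 1 → DifferentiableAt ℝ (q i) v ∧ v ≤ q i v ∧ q i v ≤ 1) := by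
    intro v hv
    rw [hE'] at hv
    exact hv
  have hb := H.base_slotsP hTop hF hn4 hW (R := 8) (b₁ := b₁) (by norm_num) (X := X) (E := E')
    (fun v hv => (hmem v hv).1) (q := q)
    (fun i h1 h2 => ae_of_all _ fun v hv => ((hmem v hv).2 i h1 h2).1)
    (fun i h1 h2 v hv => ((hmem v hv).2 i h1 h2).2.1)
    (fun i h1 h2 v hv => ((hmem v hv).2 i h1 h2).2.2) hQ
  filter_upwards [hE, hb] with v h1 h2 hv hDσ
  obtain ⟨k1, k2, k3⟩ := h1 hv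
  obtain ⟨D, -, hU, hL⟩ := hR v hv
  refine ⟨rgh_of hU hL, fun o ho => ?_⟩
  rw [(dia_der hU hL).deriv]
  obtain ⟨h4, h5⟩ := h2 (by
    rw [hE']
    exact ⟨k1, k2⟩) o ho
  obtain ⟨π, h6, h7⟩ := h5
  refine k3 _ (fun i hi => ?_) π (fun i hi => ?_) h7
  · unfold slo
    rw [hi]
    exact h4
  · exact h6 i hi i.2

end Pool.PKG
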