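import Pool.Agent.H56.SLT.Bs

/-!
# The inequality between two windows, with the permutations of the slopes

`zw_cP`: as `zw_c'`, for the families of slopes which are permutations of the slopes of the slots.
-/

set_option autoImplicit false

namespace Pool.SW

open MeasureTheory Set Filter Topology
open Finset (range univ)
open Pool.Agent.H49.Ent Pool.Agent.H32.Dense Pool.STK Pool.KA Pool.KSAT Pool.K2S Pool.PB Pool.S6C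
open Pool.GEN Pool.ONE Pool.EXW Pool.TOP Pool.ZCL Pool.ZLC Pool.ZFN Pool.ZCO Pool.PKG Pool.CHT
open Pool.Z4
open Pool.LBT (ThrOf)
open Pool.LEV (Law)
open Pool.ALL (RateOf)
open Pool.BSM (qz qz_ge qz_le qz_deriv fct_A fct_B1 qz_le1 Xz xz_cnt xz_lim Lbp lbp_ae psn_grid)
open Pool.PSI (PsN co)

variable {n : ℕ} {hn : 2 ≤ n} {S : PCl n} {P : ℝ → ℝ → ℝ} {r : ℝ → ℝ}
  {P' : ℕ → List (Fin n) × Fin n → ℝ → ℝ → ℝ} {Λ : Finset (Fin n) → Fin n → ℝ → ℝ → ℝ}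
  {o : Od n} {l : ℕ} {w₁ : ℝ} {δ : ℚ} {M : MDat} {Vd : Rq → Prop} {β : ℕ → ℝ → ℝ → ℝ}
  {lamf LU : ℝ → ℝ → ℝ}

/-- The windows of the set, in the units of the zoom. -/
theorem ae_slotsP (Z : Zwd hn P r P' Λ o l w₁ δ M Vd β lamf LU) (H : Pk hn S P r P' Λ) {G : Set ℝ}
    (hGm : MeasurableSet G)
    (hgrid : ∀ x : ℝ, Lbp G x → ∀ δ : ℝ, 0 < δ → (∃ r : ℚ, w₁ + r ∈ G ∧ x < w₁ + r ∧
      w₁ + r < x + δ) ∧ ∃ r : ℚ, w₁ + r ∈ G ∧ x - δ < w₁ + r ∧ w₁ + r < x) {xs : ℝ}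
    (hx0 : 0 ≤ xs) (hxE : β (n - 1) (w₁ + δ) (w₁ + δ) + xs ≤ 1) {A : Set ℝ} (hAG : A ⊆ G)
    {C : (Fin (n - 1) → ℝ) → ℝ → Prop} {σ : ℝ → ℝ}
    (hCA : ∀ x ∈ A, w₁ < x → x < w₁ + δ →
      CokP C (fun j => deriv (fun v => LL hn P P' o (ix l j + 1) v v) x) (σ x)) :
    ∀ᵐ v : ℝ, v ∈ {v | rho w₁ v ∈ A ∩ Ioo w₁ (w₁ + δ)} → (0 < v ∧ v < rin w₁ (w₁ + δ) ∧
      (∀ ε : ℝ, 0 < ε → ∃ x ∈ Xz w₁ δ G, v < x ∧ x < v + ε) ∧
      ∀ ε : ℝ, 0 < ε → ∃ x ∈ Xz w₁ δ G, v - ε < x ∧ x < v) ∧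
      (∀ i, 1 ≤ i → i < n - 1 → DifferentiableAt ℝ (qz hn P P' o l w₁ xs i) v ∧
        v ≤ qz hn P P' o l w₁ xs i v ∧ qz hn P P' o l w₁ xs i v ≤ 1) ∧
      CokP C (fun j => deriv (qz hn P P' o l w₁ xs j) v) (σ (rho w₁ v)) := by
  have hw0 : 0 < w₁ := Z.g1.1.1.1
  have hw1 : w₁ < 1 := Z.g1.1.1.2.1
  have hb1 : w₁ + δ < 1 := Z.gb.1.1.2.1
  have h01 : 0 < 1 - w₁ := by linarith
  have hdif : ∀ᵐ x : ℝ, ∀ i : ℕ, i < n - 1 → 0 < x → x < 1 →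
      DifferentiableAt ℝ (fun v => LL hn P P' o (ix l i + 1) v v) x := by
    refine ae_all_iff.2 fun i => ?_
    by_cases hi : i < n - 1
    · filter_upwards [Pool.STR.dia_ae (Pool.PSI.ll_law (o := o) H (ix_le (l := l) hi)).1]
        with x h1 _ h2 h3
      exact h1 h2 h3
    · exact ae_of_all _ fun x h => absurd h hi
  filter_upwards [ae_rho hw1 (lbp_ae hGm), ae_rho hw1 hdif] with v h1 h2 hv
  have hvA : rho w₁ v ∈ A := hv.1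
  have hv1 : w₁ < rho w₁ v := hv.2.1
  have hv2 : rho w₁ v < w₁ + δ := hv.2.2
  have hr : rho w₁ v = w₁ + (1 - w₁) * v := rfl
  have v0 : 0 < v := by
    rw [hr] at hv1
    have h3 : 0 < (1 - w₁) * v := by linarith
    exact (mul_pos_iff_of_pos_left h01).1 h3
  have v1 : v < rin w₁ (w₁ + δ) := by
    unfold rin
    rw [lt_div_iff₀ h01]
    rw [hr] at hv2
    linarith
  have v2 : v ≤ 1 := by
    rw [hr] at hv2
    have h3 : (1 - w₁) * v < (1 - w₁) * 1 := by linarith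
    exact (lt_of_mul_lt_mul_left h3 h01.le).le
  obtain ⟨k1, k2⟩ := xz_lim hw1 hv1 hv2 (hgrid _ (h1 (hAG hvA)))
  have hder : ∀ i, i < n - 1 → HasDerivAt (qz hn P P' o l w₁ xs i)
      (deriv (fun v => LL hn P P' o (ix l i + 1) v v) (rho w₁ v)) v := fun i hi =>
    qz_deriv hw1 (h2 i hi (by linarith) (by linarith)).hasDerivAt
  refine ⟨⟨v0, v1, k1, k2⟩, fun i hi1 hi2 => ⟨(hder i hi2).differentiableAt,
    qz_ge H hw0 hw1 hx0 hi2 v0.le v2, ?_⟩, ?_⟩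
  · -- the numbers are at most one
    have e1 := Pool.BSM.qz_mul (hn := hn) (P := P) (P' := P') (o := o) (l := l) (xs := xs) hw1 i v
    have h3 := Z.num _ (Or.inr rfl) _ (ix_le (l := l) hi2)
    rw [Z.bet _ (ix_le (l := l) hi2)] at h3
    have h4 := (Pool.PSI.ll_law (o := o) H (ix_le (l := l) hi2)).1.mono (a := rho w₁ v)
      (w := rho w₁ v) (a' := w₁ + δ) (w' := w₁ + δ) (by linarith) le_rfl hv2.le hv2.le le_rfl
      hb1.le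
    have h6 := Z.ok.ϱ0
    have h7 : qz hn P P' o l w₁ xs i v * (1 - w₁) ≤ 1 * (1 - w₁) := by
      rw [e1]
      split_ifs with h8
      · have h9 : ix l i = n - 1 := by
          have := Z.ln
          unfold ix
          rw [if_neg (by omega)]
          omega
        have h10 := Z.bet (n - 1) le_rfl (w₁ + δ) (w₁ + δ)
        rw [h9] at h4 ⊢
        linarith
      · have h9 := Z.ok.E0
        linarith
    exact le_of_mul_le_mul_right h7 h01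
  · intro s hs0 π hs1 hs2
    refine hCA _ hvA hv1 hv2 s hs0 π (fun i hi => ?_) hs2
    obtain ⟨hj1, hj2, hj3⟩ := hs1 i hi
    refine ⟨hj1, hj2, ?_⟩
    rw [hj3]
    exact (hder (π i) hj2).deriv

/-- **The inequality between two windows** with no loss, from the data on the events of the class. -/
theorem zw_cP (Z : Zwd hn P r P' Λ o l w₁ δ M Vd β lamf LU) (H : Pk hn S P r P' Λ)
    (hTop : Pool.TOP.TopS n) (hF1 : FZX 1) (hF : FZX (n - 1)) (hn4 : n ≤ 4)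
    (hW : ∀ k, 2 ≤ k → k < n → RW k) {C : (Fin (n - 1) → ℝ) → ℝ → Prop}
    (hCm : MeasurableSet {p : (Fin (n - 1) → ℝ) × ℝ | C p.1 p.2}) (hV : VAll hn hTop hF C)
    {s : Fin n → ℝ} {d : ℕ → ℝ} {al : ℝ} {g₀ : ℝ → ℝ} {e₀ : ℝ} {K₀ : ℕ} {N : ℚ → ℚ → ℝ}
    (hal : 0 < al) (hg₀ : ∀ ε : ℝ, 0 < ε → 0 < g₀ ε) (hC : ClX s d al g₀ e₀ K₀ N S)
    {E₁ : ℝ} (hE₁ : 0 ≤ E₁) (hE : β (n - 1) (w₁ + δ) (w₁ + δ) + E₁ < 1)
    (hVd : ∀ q, Vd q → q.w ≤ q.a ∧ q.a ≤ 1)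
    (hM₀ : MEvt S M w₁ E₁ (cc hn o.1.1) (n - 1) l β Vd)
    {G : Set ℝ} (hG : G ⊆ Gs P r P' Λ o) (hGm : MeasurableSet G)
    (hgrid : ∀ x : ℝ, Lbp G x → ∀ δ : ℝ, 0 < δ → (∃ r : ℚ, w₁ + r ∈ G ∧ x < w₁ + r ∧
      w₁ + r < x + δ) ∧ ∃ r : ℚ, w₁ + r ∈ G ∧ x - δ < w₁ + r ∧ w₁ + r < x)
    (hlam : ∀ x : ℚ, 0 < x → x < δ → w₁ + x ∈ G → lamf (w₁ + x) (w₁ + x) = 0)
    {A : Set ℝ} {σ : ℝ → ℝ} {s₀ : ℝ} (hs : 1 < s₀) (hAG : A ⊆ G)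
    (hA : ∀ x ∈ A, w₁ < x → x < w₁ + δ → s₀ ≤ σ x ∧ LL hn P P' o (l + 1) x x < 1 ∧
      RgUp LU x (LL hn P P' o (l + 1) x x) (σ x) ∧
      DgLo (LL hn P P' o (l + 1)) x (LL hn P P' o (l + 1) x x) (σ x) ∧
      ContinuousAt (fun v => LL hn P P' o (l + 1) v v) x ∧ Nogap (Gs P r P' Λ o) x)
    (hCA : ∀ x ∈ A, w₁ < x → x < w₁ + δ →
      CokP C (fun j => deriv (fun v => LL hn P P' o (ix l j + 1) v v) x) (σ x)) :
    ENNReal.ofReal ((1 - 0) * s₀) * volume (A ∩ Ioo w₁ (w₁ + δ)) ≤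
      ENNReal.ofReal (LL hn P P' o (l + 1) (w₁ + δ) (w₁ + δ) - LL hn P P' o (l + 1) w₁ w₁ -
        (P (w₁ + δ) (w₁ + δ) - P w₁ w₁ - (r (P (w₁ + δ) (w₁ + δ)) - r (P w₁ w₁)))) := by
  have hw0 : 0 < w₁ := Z.g1.1.1.1
  have hw1 : w₁ < 1 := Z.g1.1.1.2.1
  have hb1 : w₁ + δ < 1 := Z.gb.1.1.2.1
  have h01 : 0 < 1 - w₁ := by linarith
  have hrin : rin w₁ (w₁ + δ) ≤ 1 := by
    unfold rin
    rw [div_le_one h01]
    linarith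
  have Z' := Z.co
  have hpsn := Zwd_psn Z H hG hlam
  have key : ∀ xs : ℝ, 0 ≤ xs → β (n - 1) (w₁ + δ) (w₁ + δ) + xs ≤ 1 → ∀ {Req : Type 1} {R : Req → DtP n},
      ZBun hn S P r P' Λ o l w₁ (w₁ + δ) xs R (Ngr w₁ δ) LU →
      (∀ y : Fct n (rin w₁ (w₁ + δ)) (Xz w₁ δ G) (qz hn P P' o l w₁ xs), ∃ q : Req,
        ZPr S w₁ (ez hn o.1.1 l) (R q)
          (fun J F B => ¬ Bdf 8 (rin w₁ (w₁ + δ)) (Xz w₁ δ G) (qz hn P P' o l w₁ xs) y J F B)) →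
      ENNReal.ofReal ((1 - 0) * s₀) * volume (A ∩ Ioo w₁ (w₁ + δ)) ≤
        ENNReal.ofReal (LL hn P P' o (l + 1) (w₁ + δ) (w₁ + δ) - LL hn P P' o (l + 1) w₁ w₁ -
          (P (w₁ + δ) (w₁ + δ) - P w₁ w₁ - (r (P (w₁ + δ) (w₁ + δ)) - r (P w₁ w₁)))) := by
    intro xs hx0 hxE Req R B hfct
    have hcnt : Countable (Fct n (rin w₁ (w₁ + δ)) (Xz w₁ δ G) (qz hn P P' o l w₁ xs)) :=
      fct_cnt _ (xz_cnt hw1 δ G) _
    refine zw_x Z H hF1 hW hal hg₀ hC hx0 B hs zero_le_one hA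
      (Ψ := Bdf 8 (rin w₁ (w₁ + δ)) (Xz w₁ δ G) (qz hn P P' o l w₁ xs))
      (fun y => bdf_upr _ _ _ _ y) hfct fun S' P₁ r₁ hC₁ hX₁ hT₁ hr₁ hE₁' => ?_
    refine rows_cP (σ := fun v => σ (rho w₁ v)) hTop hF hn4 hW hCm hV hal
      (fun x hx => lt_min (hg₀ _ (half_pos hx)) one_pos) hC₁ hT₁ hr₁ hX₁
      (ae_slotsP Z H hGm hgrid hx0 hxE hAG hCA) fun v hv => ?_
    obtain ⟨-, -, -, D, hD, hU, hL⟩ := hE₁' v hv
    exact ⟨D, hD, hU, hL⟩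
  rcases zbun_or' Z H hTop hF hC.ne hE₁ hE hVd hM₀ with hB | ⟨xs, hx0, hx1, -, hB⟩
  · have h3 := Z.num _ (Or.inr rfl) (n - 1) le_rfl
    have h4 := Z.ok.E0
    have h5 := Z.ok.ϱ0
    refine key 0 le_rfl (by linarith) hB fun y => ?_
    exact fct_A H hF Z.ln hw0 hw1 hrin Z'.ok.E0 Z'.ok.ϱ0 Z'.ok.d0 hpsn y
  · have h3 : β (n - 1) (w₁ + δ) (w₁ + δ) + xs ≤ 1 := by linarith
    refine key xs hx0 h3 hB fun y => ?_
    refine fct_B1 (M := co M (n - 1)) H hF Z.ln hw0 hw1 hrin hx0 Z'.ok.E0 Z'.ok.ϱ0 Z'.ok.d0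
      hpsn (fun x hx i hi => ?_) y
    refine qz_le1 (M := co M (n - 1)) hw1 Z'.ok.E0 Z'.ok.ϱ0 ?_ (hpsn x hx).2 hi
    have h9 : ix l (n - 2) = n - 1 := by
      have := Z.ln
      unfold ix
      rw [if_neg (by omega)]
      omega
    obtain ⟨r', h1, h2, -, h4⟩ := hx
    have h1' : (0 : ℝ) < r' := by exact_mod_cast h1
    have h2' : (r' : ℝ) < δ := by exact_mod_cast h2
    rw [h9, h4]
    have h5 := (Pool.PSI.ll_law (o := o) H (le_refl (n - 1))).1.mono (a := w₁ + r') (w := w₁ + r')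
      (a' := w₁ + δ) (w' := w₁ + δ) (by linarith) le_rfl (by linarith) (by linarith) le_rfl hb1.le
    have h10 := Z.bet (n - 1) le_rfl (w₁ + δ) (w₁ + δ)
    linarith

end Pool.SW
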